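import Mathlib
import Pool.Agent.H47.Cantor4

namespace Pool.Agent.Results.MP_ab119d_nt.DimZero
open Finset Filter Topology

/-- `E 1, E 2, ...` are the digits of the `q`-Cantor series expansion of `x`. -/
def IsExpansion (q : ℕ → ℕ) (x : ℝ) (E : ℕ → ℕ) : Prop :=
  (∀ n, 1 ≤ n → E n < q n) ∧ {n | 1 ≤ n ∧ E n ≠ q n - 1}.Infinite ∧
    HasSum (fun n => (E (n + 1) : ℝ) / ∏ j ∈ Icc 1 (n + 1), (q j : ℝ)) (x - ⌊x⌋)

/-- `Q_n^{(k)}` -/
noncomputable def Qsum (q : ℕ → ℕ) (k n : ℕ) : ℝ :=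
  ∑ j ∈ Icc 1 n, (∏ t ∈ range k, (q (j + t) : ℝ))⁻¹

/-- `Q_{n,m,r}^{(k)}` -/
noncomputable def QsumAP (q : ℕ → ℕ) (k m r n : ℕ) : ℝ :=
  ∑ j ∈ (Icc 1 n).filter (fun j => j % m = r), (∏ t ∈ range k, (q (j + t) : ℝ))⁻¹

open Classical in
/-- number of positions `1 ≤ i ≤ n` at which the block `B` occurs in the digit sequence `E` -/
noncomputable def count (E : ℕ → ℕ) (k : ℕ) (B : Fin k → ℕ) (n : ℕ) : ℕ :=
  ((Icc 1 n).filter (fun i => ∀ t : Fin k, E (i + t) = B t)).card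

open Classical in
/-- the same count restricted to positions congruent to `r` modulo `m` (for `r < m`) -/
noncomputable def countAP (E : ℕ → ℕ) (k m r : ℕ) (B : Fin k → ℕ) (n : ℕ) : ℕ :=
  ((Icc 1 n).filter (fun i => (∀ t : Fin k, E (i + t) = B t) ∧ i % m = r)).card

/-- normality of order `k` of the number with digit sequence `E` -/
def NormalOrder (q E : ℕ → ℕ) (k : ℕ) : Prop :=
  ∀ B : Fin k → ℕ, Tendsto (fun n => (count E k B n : ℝ) / Qsum q k n) atTop (𝓝 1)

/-- membership in `N^{AP}_k(Q; m, r)` of the number with digit sequence `E` -/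
def NormalAP (q E : ℕ → ℕ) (k m r : ℕ) : Prop :=
  ∀ B : Fin k → ℕ, Tendsto (fun n => (countAP E k m r B n : ℝ) / QsumAP q k m r n) atTop (𝓝 1)

open Pool.Agent.H47.Cantor in
theorem result : ∃ q : ℕ → ℕ, (∀ n, 2 ≤ q n) ∧ Tendsto q atTop atTop ∧
    (∀ k m r, 1 ≤ k → r < m → Tendsto (QsumAP q k m r) atTop atTop) ∧
    dimH {x : ℝ | ∃ E, IsExpansion q x E ∧ (∀ k, 1 ≤ k → NormalOrder q E k) ∧
      ∀ k r, 2 ≤ k → r < k → ¬ NormalAP q E k k r} = 0 := by
  classical
  refine ⟨q1, q1_two, q1_tendsto, fun k m r _ hr => div1 k m r hr, le_antisymm ?_ bot_le⟩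
  have sub : {x : ℝ | ∃ E, IsExpansion q1 x E ∧ (∀ k, 1 ≤ k → NormalOrder q1 E k) ∧
      ∀ k r, 2 ≤ k → r < k → ¬ NormalAP q1 E k k r} ⊆ ⋃ p : ℤ × ℕ,
      {x : ℝ | ∃ e : ℕ → ℕ, (∀ n, 1 ≤ n → e n < q1 n) ∧
      HasSum (fun n => (e (n + 1) : ℝ) / ∏ j ∈ Icc 1 (n + 1), (q1 j : ℝ)) (x - (p.1 : ℝ)) ∧
      ∀ N, ∃ n, N ≤ n ∧ Hu (n + 1) ∧ e (n + 1) ≤ p.2} := by
    rintro x ⟨E, hE, hN, hA⟩
    by_contra hx
    refine hA 2 1 le_rfl (by norm_num) fun B => ?_
    have h1 : ∃ N, ∀ n, N ≤ n → Hu (n + 1) → B 0 + B 1 < E (n + 1) := by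
      by_contra hc
      push Not at hc
      exact hx (Set.mem_iUnion.2 ⟨(⌊x⌋, B 0 + B 1), E, hE.1, hE.2.2, hc⟩)
    obtain ⟨N, hN'⟩ := h1
    have hS : Tendsto (fun n => S q0 L0 2 (n + 1)) atTop atTop :=
      (S_tendsto q0 L0 q0_one 2).comp (tendsto_add_atTop_nat 1)
    have hC := ((H_small (N + 4)).comp (tendsto_add_atTop_nat 1)).div main1 (by norm_num)
    rw [zero_div] at hC
    refine ratio _ (fun n => countAP E 2 2 0 B n) _ (QsumAP q1 2 2 0)
      (fun n => ∑ i ∈ (Icc 1 n).filter (fun i => i % 4 = 1), (∏ t ∈ range 2, (q1 (i + t) : ℝ))⁻¹)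
      (fun n => 2 * (H L0 (sg q0 L0 (n + 1)) : ℝ) + (N + 4)) ((hN 2 (by norm_num) B).congr
        fun n => ?_) (hC.congr' ?_) ?_
    · congr 1
      · unfold count countAP
        rw [← card_filter_add_card_filter_not (fun i => i % 2 = 1), filter_filter, filter_filter]
        push_cast
        congr 3
        ext i
        have : ¬ i % 2 = 1 ↔ i % 2 = 0 := by omega
        simp only [mem_filter, this]
      · unfold Qsum QsumAP
        rw [← sum_filter_add_sum_filter_not _ (fun i => i % 2 = 1)]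
        congr 3
        ext i
        omega
    · filter_upwards [hS.eventually_gt_atTop 0] with n hn
      simp only [Pi.div_apply, Function.comp]
      rw [div_div_div_cancel_right₀ hn.ne']
    · filter_upwards [hS.eventually_gt_atTop 0, main1.eventually (lt_mem_nhds
        (show (0 : ℝ) < 1 / 4 by norm_num))] with n hn h2
      have c0 : (0 : ℝ) ≤ N := by positivity
      refine ⟨(div_pos_iff_of_pos_right hn).1 h2, ?_, by positivity, ?_, ?_, ?_⟩
      · exact sum_le_sum_of_subset_of_nonneg (fun i hi => by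
          simp only [mem_filter] at hi ⊢; exact ⟨hi.1, by omega⟩) fun _ _ _ => by positivity
      · have := even_cnt E B N hN' n
        unfold countAP
        linarith
      · exact sum_nonneg fun _ _ => by positivity
      · have := even_wt n
        unfold QsumAP
        linarith
  refine (dimH_mono sub).trans ?_
  rw [dimH_iUnion]
  exact iSup_le fun p => (dim_zero q1 q1_two Hu q1_hu p.1 p.2).le

end Pool.Agent.Results.MP_ab119d_nt.DimZero
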